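import Pool.Agent.H27.AP.Targets

/-!
# Row FB of the board `apr_modules` (MP_98b15b_nt)
-/

set_option autoImplicit false

open Finset Real Filter

namespace Pool.Agent.H35.APR

open Pool.Agent.H27.AP

theorem ev_fb (C : ℝ) (hC : 1 ≤ C) (e : ℝ) (he : 0 < e) :
    ∀ᶠ t : ℝ in atTop, C * (1 + Real.log t) ≤ t ^ e := by
  have h4 := (isLittleO_log_rpow_atTop he).bound (c := (2 * C)⁻¹) (by positivity)
  have h5 := (tendsto_rpow_atTop he).eventually_ge_atTop (2 * C)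
  filter_upwards [h4, h5, eventually_ge_atTop 1] with t ht ht5 ht0
  have h6 : 0 ≤ t ^ e := by positivity
  rw [Real.norm_of_nonneg (Real.log_nonneg ht0), Real.norm_of_nonneg h6] at ht
  have h7 : (0 : ℝ) < 2 * C := by positivity
  rw [← div_eq_inv_mul, le_div_iff₀' h7] at ht
  linarith

theorem pf_FB (hFA : T_FA) (hTRN : T_TRN) (hPNB : T_PNB) : T_FB := by
  intro A δ hδ hδ3
  obtain ⟨C₀, hC₀, hp⟩ := hPNB
  set δ' := (δ + 1 / 3) / 2 with hδ'
  have h1 : 0 < δ' := by rw [hδ']; linarith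
  have h2 : δ' < 1 / 3 := by rw [hδ']; linarith
  have h3 : 0 < δ' - δ := by rw [hδ']; linarith
  obtain ⟨C₁, hC₁, hFA⟩ := hFA A δ' h1 h2
  have hev : ∀ᶠ N : ℕ in atTop, C₀ * (1 + Real.log N) ≤ (N : ℝ) ^ (δ' - δ) :=
    tendsto_natCast_atTop_atTop.eventually (ev_fb C₀ hC₀ (δ' - δ) h3)
  obtain ⟨N₀, hN₀⟩ := eventually_atTop.1 hev
  refine ⟨6 * C₀ * C₁ + (1 + Real.log (N₀ + 1)) ^ (A + 1), ?_⟩
  intro N hN
  have hN1 : (1 : ℝ) < N := by exact_mod_cast hN
  have hN2 : (2 : ℝ) ≤ N := by exact_mod_cast hN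
  have hN0 : (0 : ℝ) < N := by linarith
  have hlogN : 0 < Real.log N := Real.log_pos hN1
  have hl0 : 0 ≤ Real.log ((N₀ : ℝ) + 1) :=
    Real.log_nonneg (by linarith [Nat.cast_nonneg (α := ℝ) N₀])
  set q : ℝ := (N : ℝ) / Real.log N ^ (A + 1) with hq
  have hq0 : 0 ≤ q := by positivity
  set S : Set ℕ := {a : ℕ | 1 ≤ a ∧ a ≤ N ∧ ∃ b : ℕ, 1 ≤ b ∧ A ≤ b ∧ (b : ℝ) ≤ (a : ℝ) ^ δ ∧
    p (a + b + 1) < p a + p b} with hS
  have t1 : 0 ≤ 6 * C₀ * C₁ * q := by positivity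
  have t2 : 0 ≤ (1 + Real.log ((N₀ : ℝ) + 1)) ^ (A + 1) * q := by positivity
  rw [add_mul]
  by_cases hbig : N₀ ≤ N
  swap
  · -- small N
    push Not at hbig
    have h4 : ((S.ncard : ℕ) : ℝ) ≤ N := by
      have h5 : S ⊆ ((Icc 1 N : Finset ℕ) : Set ℕ) := by
        rintro a ⟨a1, a2, -⟩
        simpa using ⟨a1, a2⟩
      have h6 := Set.ncard_le_ncard h5 (Finset.finite_toSet _)
      rw [Set.ncard_coe_finset, Nat.card_Icc] at h6
      exact_mod_cast h6.trans (by omega)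
    have h5 : Real.log N ≤ 1 + Real.log ((N₀ : ℝ) + 1) := by
      have h6 : Real.log N ≤ Real.log ((N₀ : ℝ) + 1) := by
        apply Real.log_le_log hN0
        have : (N : ℝ) < N₀ := by exact_mod_cast hbig
        linarith
      linarith
    have h6 : Real.log N ^ (A + 1) ≤ (1 + Real.log ((N₀ : ℝ) + 1)) ^ (A + 1) :=
      pow_le_pow_left₀ hlogN.le h5 _
    have h7 : (N : ℝ) ≤ (1 + Real.log ((N₀ : ℝ) + 1)) ^ (A + 1) * q := by
      rw [hq, ← mul_div_assoc, le_div_iff₀ (by positivity), mul_comm]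
      exact mul_le_mul_of_nonneg_right h6 hN0.le
    linarith
  -- large N
  have hevN := hN₀ N hbig
  set N' := ⌈C₀ * N * (1 + Real.log N)⌉₊ + 1 with hN'
  have hpos : 0 ≤ C₀ * N * (1 + Real.log N) := by positivity
  have hceil : C₀ * N * (1 + Real.log N) ≤ (⌈C₀ * N * (1 + Real.log N)⌉₊ : ℝ) := Nat.le_ceil _
  have hceil2 : (⌈C₀ * N * (1 + Real.log N)⌉₊ : ℝ) < C₀ * N * (1 + Real.log N) + 1 :=
    Nat.ceil_lt_add_one hpos
  have hN'c : (N' : ℝ) = (⌈C₀ * N * (1 + Real.log N)⌉₊ : ℝ) + 1 := by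
    rw [hN']
    push_cast
    ring
  have hCN : (N : ℝ) ≤ C₀ * N * (1 + Real.log N) := by
    have h4 : (1 : ℝ) * N ≤ C₀ * N := mul_le_mul_of_nonneg_right hC₀ hN0.le
    have h5 : C₀ * N * 1 ≤ C₀ * N * (1 + Real.log N) :=
      mul_le_mul_of_nonneg_left (by linarith) (by positivity)
    linarith
  have hNN' : (N : ℝ) ≤ N' := by linarith
  set T : Set ℕ := {x : ℕ | x < N' ∧ x.Prime ∧ ∃ y : ℕ, y.Prime ∧ A ≤ Nat.primeCounting y ∧
    (y : ℝ) ≤ (N' : ℝ) ^ δ' ∧ Nat.primeCounting y + 1 ≤ P (y - 1) x} with hT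
  have hTfin : T.Finite := (Set.finite_Iio N').subset fun x hx => hx.1
  have hmaps : ∀ a ∈ S, p a ∈ T := by
    rintro a ⟨a1, a2, b, b1, b2, b3, b4⟩
    obtain ⟨q1, q2, q3, q4⟩ := hTRN a b a1 b1 b4
    have a1r : (1 : ℝ) ≤ a := by exact_mod_cast a1
    have a2r : (a : ℝ) ≤ N := by exact_mod_cast a2
    have b1r : (1 : ℝ) ≤ b := by exact_mod_cast b1
    refine ⟨?_, q1, p b, q2, ?_, ?_, q4⟩
    · have h4 := hp a a1
      have h5 : C₀ * a * (1 + Real.log a) ≤ C₀ * N * (1 + Real.log N) := by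
        have h6 : Real.log a ≤ Real.log N := Real.log_le_log (by linarith) a2r
        have h7 : 0 ≤ Real.log a := Real.log_nonneg a1r
        exact mul_le_mul (mul_le_mul_of_nonneg_left a2r (by linarith)) (by linarith)
          (by linarith) (by positivity)
      have h6 : (p a : ℝ) < N' := by linarith
      exact_mod_cast h6
    · rw [q3]
      exact b2
    · have h4 := hp b b1
      have hbN : (b : ℝ) ≤ (N : ℝ) ^ δ :=
        b3.trans (Real.rpow_le_rpow (by linarith) a2r hδ.le)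
      have hbN1 : (b : ℝ) ≤ N := by
        refine hbN.trans ?_
        calc (N : ℝ) ^ δ ≤ (N : ℝ) ^ (1 : ℝ) :=
              Real.rpow_le_rpow_of_exponent_le hN1.le (by linarith)
          _ = N := Real.rpow_one _
      have h5 : C₀ * b * (1 + Real.log b) ≤ (N : ℝ) ^ δ * (C₀ * (1 + Real.log N)) := by
        have h6 : Real.log b ≤ Real.log N := Real.log_le_log (by linarith) hbN1
        have h7 : 0 ≤ Real.log b := Real.log_nonneg b1r
        have h8 : (b : ℝ) * (C₀ * (1 + Real.log b)) ≤ (N : ℝ) ^ δ * (C₀ * (1 + Real.log N)) :=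
          mul_le_mul hbN (mul_le_mul_of_nonneg_left (by linarith) (by linarith))
            (by positivity) (by positivity)
        linarith
      have h6 : (N : ℝ) ^ δ * (C₀ * (1 + Real.log N)) ≤ (N : ℝ) ^ δ * (N : ℝ) ^ (δ' - δ) :=
        mul_le_mul_of_nonneg_left hevN (by positivity)
      have h7 : (N : ℝ) ^ δ * (N : ℝ) ^ (δ' - δ) = (N : ℝ) ^ δ' := by
        rw [← Real.rpow_add hN0]
        congr 1
        ring
      have h8 : (N : ℝ) ^ δ' ≤ (N' : ℝ) ^ δ' := Real.rpow_le_rpow hN0.le hNN' h1.le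
      linarith
  have hinj : Set.InjOn p S := by
    rintro a ⟨a1, -⟩ b ⟨b1, -⟩ hab
    have h4 : Nat.nth Nat.Prime (a - 1) = Nat.nth Nat.Prime (b - 1) := hab
    have h5 := (Nat.nth_strictMono Nat.infinite_setOfPred_prime).injective h4
    omega
  have hcard : ((S.ncard : ℕ) : ℝ) ≤ ((T.ncard : ℕ) : ℝ) := by
    exact_mod_cast Set.ncard_le_ncard_of_injOn p hmaps hinj hTfin
  have hN'2 : 2 ≤ N' := by
    have : (2 : ℝ) ≤ N' := by linarith
    exact_mod_cast this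
  have hTle := hFA N' hN'2
  have hlogle : Real.log N ≤ Real.log N' := Real.log_le_log hN0 hNN'
  have h4 : (N' : ℝ) / Real.log N' ^ (A + 2) ≤ N' / Real.log N ^ (A + 2) :=
    div_le_div_of_nonneg_left (by positivity) (by positivity)
      (pow_le_pow_left₀ hlogN.le hlogle _)
  have hlog2 : 0.6931471803 < Real.log 2 := Real.log_two_gt_d9
  have hlogN2 : Real.log 2 ≤ Real.log N := Real.log_le_log (by norm_num) hN2
  have h5 : (N' : ℝ) ≤ 6 * C₀ * N * Real.log N := by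
    have h6 : (1 : ℝ) + Real.log N ≤ 3 * Real.log N := by linarith
    have h7 : C₀ * N * (1 + Real.log N) ≤ C₀ * N * (3 * Real.log N) :=
      mul_le_mul_of_nonneg_left h6 (by positivity)
    have h8 : (N' : ℝ) ≤ 2 * (C₀ * N * (1 + Real.log N)) := by linarith
    linarith
  have h6 : C₁ * (N' / Real.log N ^ (A + 2)) ≤ 6 * C₀ * C₁ * q := by
    have h7 : C₁ * (N' / Real.log N ^ (A + 2)) ≤
        C₁ * ((6 * C₀ * N * Real.log N) / Real.log N ^ (A + 2)) :=
      mul_le_mul_of_nonneg_left (div_le_div_of_nonneg_right h5 (by positivity)) hC₁.le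
    refine h7.trans (le_of_eq ?_)
    rw [hq, show A + 2 = (A + 1) + 1 by ring, pow_succ (Real.log N) (A + 1)]
    field_simp
  have h7 : C₁ * (N' / Real.log N' ^ (A + 2)) ≤ C₁ * (N' / Real.log N ^ (A + 2)) :=
    mul_le_mul_of_nonneg_left h4 hC₁.le
  linarith

end Pool.Agent.H35.APR
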