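import Pool.Agent.H35.APR.TUP
import Pool.Agent.H21.PI.Moments

/-!
# Row LOG of the board `apr_modules` (MP_98b15b_nt)
-/

set_option autoImplicit false

open Finset Real Filter

namespace Pool.Agent.H35.APR

open Pool.Agent.H27.AP Pool.Agent.H21.PI

theorem P_le (h x : ℕ) : P h x ≤ h := by
  unfold P
  refine (card_filter_le _ _).trans ?_
  rw [Nat.card_Ioc]
  omega

theorem floorlog_mono {a b : ℕ} (ha : 1 ≤ a) (hab : a ≤ b) :
    ⌊Real.log (a : ℝ)⌋₊ ≤ ⌊Real.log (b : ℝ)⌋₊ := by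
  apply Nat.floor_le_floor
  apply Real.log_le_log
  · exact_mod_cast ha
  · exact_mod_cast hab

/-- two windows cover the interval -/
theorem P_le_X {N x : ℕ} (hx : 1 ≤ x) (hN : 1 ≤ N) (hxN : N ≤ x * x) :
    P ⌊Real.log N⌋₊ x ≤ X (x + 1) + X (x + 2 + ⌊Real.log (x : ℝ)⌋₊) := by
  have hxr : (1 : ℝ) ≤ x := by exact_mod_cast hx
  have hNr : (1 : ℝ) ≤ N := by exact_mod_cast hN
  have hL : ⌊Real.log (N : ℝ)⌋₊ ≤ 2 * ⌊Real.log (x : ℝ)⌋₊ + 2 := by
    have h1 : Real.log N ≤ 2 * Real.log x := by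
      have h2 : (N : ℝ) ≤ (x : ℝ) ^ 2 := by
        rw [sq]
        exact_mod_cast hxN
      have h3 := Real.log_le_log (by linarith) h2
      rw [Real.log_pow] at h3
      exact_mod_cast h3
    have h4 := Nat.lt_floor_add_one (Real.log (x : ℝ))
    have h5 : (⌊Real.log (N : ℝ)⌋₊ : ℝ) ≤ Real.log N := Nat.floor_le (Real.log_nonneg hNr)
    have h6 : (⌊Real.log (N : ℝ)⌋₊ : ℝ) ≤ ((2 * ⌊Real.log (x : ℝ)⌋₊ + 2 : ℕ) : ℝ) := by
      push_cast
      linarith
    exact_mod_cast h6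
  have m1 := floorlog_mono hx (show x ≤ x + 1 by omega)
  have m2 := floorlog_mono hx (show x ≤ x + 2 + ⌊Real.log (x : ℝ)⌋₊ by omega)
  unfold P X
  refine (card_le_card ?_).trans (card_union_le _ _)
  intro p hp
  rw [mem_filter, mem_Ioc] at hp
  rw [mem_union, mem_filter, mem_filter, mem_Icc, mem_Icc]
  by_cases h : p ≤ x + 2 + ⌊Real.log (x : ℝ)⌋₊
  · left
    exact ⟨⟨by omega, by omega⟩, hp.2⟩
  · right
    exact ⟨⟨by omega, by omega⟩, hp.2⟩

theorem choose_lower (r j m : ℕ) (hm : 4 * r ≤ m) (hj : m ≤ 2 * j) :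
    ((m : ℝ) / 4) ^ r ≤ r.factorial * (j.choose r : ℝ) := by
  have h1 := Nat.pow_sub_le_descFactorial j r
  have h2 : j.descFactorial r = r.factorial * j.choose r := Nat.descFactorial_eq_factorial_mul_choose j r
  rw [h2] at h1
  have h3 : ((m : ℝ) / 4) ≤ ((j + 1 - r : ℕ) : ℝ) := by
    have h4 : m ≤ 4 * (j + 1 - r) := by omega
    have h5 : (m : ℝ) ≤ 4 * ((j + 1 - r : ℕ) : ℝ) := by exact_mod_cast h4
    linarith
  calc ((m : ℝ) / 4) ^ r ≤ ((j + 1 - r : ℕ) : ℝ) ^ r := pow_le_pow_left₀ (by positivity) h3 _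
    _ ≤ r.factorial * (j.choose r : ℝ) := by exact_mod_cast h1

theorem pf_LOG : T_LOG := by
  intro r
  obtain ⟨A, hA1, hmom⟩ := moments
  obtain ⟨n₀, hn₀⟩ := eventually_atTop.1 (hmom r)
  set N₀ := max n₀ 3 with hN₀
  have hl0 : 0 ≤ Real.log (N₀ : ℝ) := Real.log_natCast_nonneg _
  set K : ℝ := (2 * ((r + 1 : ℕ) : ℝ)) ^ (r + 1) with hK
  refine ⟨(1 + Real.log N₀) ^ r + (4 * r) ^ r + 2 * K + 4 * (r.factorial * (4 * A) ^ r),
    by positivity, ?_⟩
  intro N m hN hm
  have hN1 : (1 : ℝ) < N := by exact_mod_cast hN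
  have hm1 : (1 : ℝ) ≤ m := by exact_mod_cast hm
  set q : ℝ := (N : ℝ) / (m : ℝ) ^ r with hq
  have hq0 : 0 ≤ q := by positivity
  have t1 : 0 ≤ (1 + Real.log N₀) ^ r * q := by positivity
  have t2 : 0 ≤ (4 * r : ℝ) ^ r * q := by positivity
  have t3 : 0 ≤ 2 * K * q := by positivity
  have t4 : 0 ≤ 4 * (r.factorial * (4 * A) ^ r) * q := by positivity
  have hexp : ((1 + Real.log N₀) ^ r + (4 * r) ^ r + 2 * K + 4 * (r.factorial * (4 * A) ^ r)) * q =
      (1 + Real.log N₀) ^ r * q + (4 * r : ℝ) ^ r * q + 2 * K * q +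
        4 * (r.factorial * (4 * A) ^ r) * q := by ring
  rw [hexp]
  have htriv : (((range N).filter fun x => m ≤ P ⌊Real.log N⌋₊ x).card : ℝ) ≤ N := by
    have h1 := card_filter_le (range N) (fun x => m ≤ P ⌊Real.log N⌋₊ x)
    rw [card_range] at h1
    exact_mod_cast h1
  by_cases hmL : m ≤ ⌊Real.log N⌋₊
  swap
  · -- empty
    have h1 : ((range N).filter fun x => m ≤ P ⌊Real.log N⌋₊ x) = ∅ := by
      rw [filter_eq_empty_iff]
      intro x _ hx
      exact hmL (hx.trans (P_le _ _))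
    rw [h1, card_empty, Nat.cast_zero]
    linarith
  have hmlog : (m : ℝ) ≤ Real.log N :=
    (show (m : ℝ) ≤ (⌊Real.log N⌋₊ : ℝ) by exact_mod_cast hmL).trans
      (Nat.floor_le (Real.log_nonneg hN1.le))
  by_cases hbig : N₀ ≤ N
  swap
  · -- small N
    push Not at hbig
    have h1 : (m : ℝ) ≤ 1 + Real.log N₀ := by
      have h2 : Real.log N ≤ Real.log N₀ := by
        apply Real.log_le_log (by linarith)
        exact_mod_cast hbig.le
      linarith
    have h2 : (m : ℝ) ^ r ≤ (1 + Real.log N₀) ^ r := pow_le_pow_left₀ (by linarith) h1 _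
    have h3 : (N : ℝ) ≤ (1 + Real.log N₀) ^ r * q := by
      rw [hq, ← mul_div_assoc, le_div_iff₀ (by positivity), mul_comm]
      exact mul_le_mul_of_nonneg_right h2 (by linarith)
    linarith
  by_cases hm4 : 4 * r ≤ m
  swap
  · -- small m
    push Not at hm4
    have h1 : (m : ℝ) ≤ 4 * r := by exact_mod_cast hm4.le
    have h2 : (m : ℝ) ^ r ≤ (4 * r : ℝ) ^ r := pow_le_pow_left₀ (by linarith) h1 _
    have h3 : (N : ℝ) ≤ (4 * r : ℝ) ^ r * q := by
      rw [hq, ← mul_div_assoc, le_div_iff₀ (by positivity), mul_comm]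
      exact mul_le_mul_of_nonneg_right h2 (by linarith)
    linarith
  -- the main case
  have hN3 : 3 ≤ N := (le_max_right _ _).trans hbig
  have hN3r : (3 : ℝ) ≤ N := by exact_mod_cast hN3
  have hlog1 : 1 ≤ Real.log N := by
    rw [← Real.log_exp 1]
    apply Real.log_le_log (exp_pos 1)
    have := Real.exp_one_lt_d9
    linarith
  set G := (Icc 1 (2 * N)).filter fun k => m ≤ 2 * X k with hG
  have hGcard : (G.card : ℝ) ≤ 2 * (r.factorial * (4 * A) ^ r) * q := by
    have h1 := hn₀ (2 * N) ((le_max_left _ _).trans (hbig.trans (by omega)))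
    have h2 : (G.card : ℝ) * ((m : ℝ) / 4) ^ r ≤
        r.factorial * ((∑ k ∈ Icc 1 (2 * N), (X k).choose r : ℕ) : ℝ) := by
      push_cast
      rw [mul_sum]
      calc (G.card : ℝ) * ((m : ℝ) / 4) ^ r = ∑ _k ∈ G, ((m : ℝ) / 4) ^ r := by
            rw [sum_const, nsmul_eq_mul]
        _ ≤ ∑ k ∈ G, r.factorial * ((X k).choose r : ℝ) := by
            apply sum_le_sum
            intro k hk
            exact choose_lower r (X k) m hm4 (mem_filter.1 hk).2
        _ ≤ ∑ k ∈ Icc 1 (2 * N), r.factorial * ((X k).choose r : ℝ) := by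
            apply sum_le_sum_of_subset_of_nonneg (filter_subset _ _)
            intro k _ _
            positivity
    have h3 : (G.card : ℝ) * ((m : ℝ) / 4) ^ r ≤ r.factorial * (A ^ r * (2 * N)) := by
      refine h2.trans (mul_le_mul_of_nonneg_left ?_ (by positivity))
      have h4 : (((2 * N : ℕ) : ℝ)) = 2 * N := by push_cast; ring
      rw [← h4]
      exact h1
    rw [div_pow, ← mul_div_assoc, div_le_iff₀ (by positivity)] at h3
    rw [hq, ← mul_div_assoc, le_div_iff₀ (by positivity)]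
    refine h3.trans (le_of_eq ?_)
    rw [mul_pow]
    ring
  have hsub : ((range N).filter fun x => m ≤ P ⌊Real.log N⌋₊ x) ⊆
      range (Nat.sqrt N + 1) ∪ (((range N).filter fun x => x + 1 ∈ G) ∪
        ((range N).filter fun x : ℕ => x + 2 + ⌊Real.log (x : ℝ)⌋₊ ∈ G)) := by
    intro x hx
    rw [mem_filter, mem_range] at hx
    by_cases hxs : x < Nat.sqrt N + 1
    · exact mem_union_left _ (mem_range.2 hxs)
    · apply mem_union_right
      have h1 : Nat.sqrt N < x := by omega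
      have h2 : N < x * x := Nat.sqrt_lt.1 h1
      have hx1 : 1 ≤ x := by omega
      have h3 := P_le_X hx1 (by omega) h2.le
      have h4 : ⌊Real.log (x : ℝ)⌋₊ ≤ x - 1 := by
        apply Nat.floor_le_of_le
        have hx0 : (0 : ℝ) < x := by exact_mod_cast hx1
        have := Real.log_le_sub_one_of_pos hx0
        rw [Nat.cast_sub hx1]
        push_cast
        exact this
      have h5 : m ≤ 2 * X (x + 1) ∨ m ≤ 2 * X (x + 2 + ⌊Real.log (x : ℝ)⌋₊) := by omega
      rcases h5 with h5 | h5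
      · exact mem_union_left _ (mem_filter.2 ⟨mem_range.2 hx.1,
          mem_filter.2 ⟨mem_Icc.2 ⟨by omega, by omega⟩, h5⟩⟩)
      · exact mem_union_right _ (mem_filter.2 ⟨mem_range.2 hx.1,
          mem_filter.2 ⟨mem_Icc.2 ⟨by omega, by omega⟩, h5⟩⟩)
  have c1 : ((range N).filter fun x => x + 1 ∈ G).card ≤ G.card := by
    apply card_le_card_of_injOn (fun x => x + 1)
    · intro x hx
      exact (mem_filter.1 hx).2
    · intro a _ b _ hab
      simpa using hab
  have c2 : ((range N).filter fun x : ℕ => x + 2 + ⌊Real.log (x : ℝ)⌋₊ ∈ G).card ≤ G.card := by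
    apply card_le_card_of_injOn (fun x : ℕ => x + 2 + ⌊Real.log (x : ℝ)⌋₊)
    · intro x hx
      exact (mem_filter.1 hx).2
    · intro a _ b _ hab
      have mono : ∀ s t : ℕ, s ≤ t → ⌊Real.log (s : ℝ)⌋₊ ≤ ⌊Real.log (t : ℝ)⌋₊ := by
        intro s t hst
        rcases Nat.eq_zero_or_pos s with rfl | hs
        · simp
        · exact floorlog_mono hs hst
      have hab' : a + 2 + ⌊Real.log (a : ℝ)⌋₊ = b + 2 + ⌊Real.log (b : ℝ)⌋₊ := hab
      rcases lt_trichotomy a b with h | h | h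
      · have := mono a b h.le
        omega
      · exact h
      · have := mono b a h.le
        omega
  have hcard : (((range N).filter fun x => m ≤ P ⌊Real.log N⌋₊ x).card : ℝ) ≤
      (Nat.sqrt N + 1) + (G.card + G.card) := by
    have h1 := card_le_card hsub
    have h2 := card_union_le (range (Nat.sqrt N + 1)) (((range N).filter fun x => x + 1 ∈ G) ∪
        ((range N).filter fun x : ℕ => x + 2 + ⌊Real.log (x : ℝ)⌋₊ ∈ G))
    have h3 := card_union_le ((range N).filter fun x => x + 1 ∈ G)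
        ((range N).filter fun x : ℕ => x + 2 + ⌊Real.log (x : ℝ)⌋₊ ∈ G)
    rw [card_range] at h2
    have h4 : ((range N).filter fun x => m ≤ P ⌊Real.log N⌋₊ x).card ≤
      (Nat.sqrt N + 1) + (G.card + G.card) := by omega
    exact_mod_cast h4
  have hsq : ((Nat.sqrt N : ℕ) : ℝ) + 1 ≤ 2 * K * q := by
    have h1 : ((Nat.sqrt N : ℕ) : ℝ) ≤ √(N : ℝ) := Real.nat_sqrt_le_real_sqrt
    have h2 : 1 ≤ √(N : ℝ) := Real.one_le_sqrt.2 hN1.le
    have h3 := log_pow_le (r + 1) (by omega) N hN1.le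
    rw [← Real.sqrt_eq_rpow, ← hK] at h3
    have h4 : (m : ℝ) ^ r ≤ Real.log N ^ (r + 1) :=
      (pow_le_pow_left₀ (by linarith) hmlog r).trans (pow_le_pow_right₀ hlog1 (by omega))
    have h5 : (m : ℝ) ^ r ≤ K * √(N : ℝ) := h4.trans h3
    have h6 : √(N : ℝ) ≤ K * q := by
      rw [hq, ← mul_div_assoc, le_div_iff₀ (by positivity)]
      have h7 : √(N : ℝ) * √(N : ℝ) = N := Real.mul_self_sqrt (by linarith)
      calc √(N : ℝ) * (m : ℝ) ^ r ≤ √(N : ℝ) * (K * √(N : ℝ)) :=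
            mul_le_mul_of_nonneg_left h5 (Real.sqrt_nonneg _)
        _ = K * (√(N : ℝ) * √(N : ℝ)) := by ring
        _ = K * N := by rw [h7]
    linarith
  linarith

end Pool.Agent.H35.APR
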