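import Pool.Agent.H27.AP.Targets

/-!
# Row RB of the board `apr_modules` (MP_98b15b_nt)
-/

set_option autoImplicit false

open Finset Real Filter

namespace Pool.Agent.H35.APR

open Pool.Agent.H27.AP

theorem P_mono {h h' : ℕ} (hh : h ≤ h') (x : ℕ) : P h x ≤ P h' x := by
  unfold P
  apply card_le_card
  apply filter_subset_filter
  exact Ioc_subset_Ioc le_rfl (by omega)

theorem P_add (h k x : ℕ) : P (h + k) x = P h x + P k (x + h) := by
  unfold P
  rw [← card_union_of_disjoint, ← filter_union]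
  · congr 2
    ext t
    simp only [mem_union, mem_Ioc]
    omega
  · rw [disjoint_left]
    intro t ht ht'
    simp only [mem_filter, mem_Ioc] at ht ht'
    omega

theorem P_sum (L k x : ℕ) : P (k * L) x = ∑ i ∈ range k, P L (x + i * L) := by
  induction k with
  | zero =>
    simp [P]
  | succ k ih =>
    rw [sum_range_succ, ← ih, Nat.succ_mul, P_add]

/-- pigeonhole -/
theorem exists_block {L y x m : ℕ} (hL : 1 ≤ L) (hm : 1 ≤ m)
    (h : Nat.primeCounting y + 1 ≤ P y x)
    (hk : (y / L + 1) * (m - 1) ≤ Nat.primeCounting y) :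
    ∃ i ≤ y / L, m ≤ P L (x + i * L) := by
  by_contra hcon
  push Not at hcon
  have h1 : P y x ≤ P ((y / L + 1) * L) x := by
    apply P_mono
    have h2 := Nat.lt_mul_div_succ y (show 0 < L by omega)
    rw [mul_comm] at h2
    exact h2.le
  rw [P_sum] at h1
  have h3 : ∑ i ∈ range (y / L + 1), P L (x + i * L) ≤ ∑ _i ∈ range (y / L + 1), (m - 1) := by
    apply sum_le_sum
    intro i hi
    have h4 := hcon i (by rw [mem_range] at hi; omega)
    omega
  rw [sum_const, card_range, smul_eq_mul] at h3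
  omega

theorem ev_real (M h₀ : ℕ) : ∀ᶠ t : ℝ in atTop, 4 ≤ t ∧ (h₀ : ℝ) ^ 2 ≤ t ∧ t ^ M ≤ exp t ∧
    4 * (M + 1) * Real.log t ≤ t ^ (1 / 4 : ℝ) := by
  have h1 : ∀ᶠ t : ℝ in atTop, t ^ M ≤ exp t := by
    have h2 := (isLittleO_pow_exp_atTop (n := M)).bound (c := 1) one_pos
    filter_upwards [h2, eventually_ge_atTop 0] with t ht ht0
    rw [Real.norm_of_nonneg (by positivity), Real.norm_of_nonneg (exp_pos t).le, one_mul] at ht
    exact ht
  have h3 : ∀ᶠ t : ℝ in atTop, 4 * (M + 1) * Real.log t ≤ t ^ (1 / 4 : ℝ) := by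
    have h4 := (isLittleO_log_rpow_atTop (r := 1 / 4) (by norm_num)).bound
      (c := (4 * (M + 1) : ℝ)⁻¹) (by positivity)
    filter_upwards [h4, eventually_ge_atTop 1] with t ht ht0
    have h5 : 0 ≤ t ^ (1 / 4 : ℝ) := by positivity
    rw [Real.norm_of_nonneg (Real.log_nonneg ht0), Real.norm_of_nonneg h5] at ht
    have h6 : (0 : ℝ) < 4 * (M + 1) := by positivity
    rwa [← div_eq_inv_mul, le_div_iff₀' h6] at ht
  filter_upwards [h1, h3, eventually_ge_atTop 4, eventually_ge_atTop ((h₀ : ℝ) ^ 2)] with t a b c e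
  exact ⟨c, e, a, b⟩

theorem pf_RB (hLOG : T_LOG) (hPIL : T_PIL) : T_RB := by
  intro A M
  obtain ⟨C₁, hC₁, hLOG⟩ := hLOG (4 * (M + A + 2))
  obtain ⟨h₀, hPIL⟩ := hPIL (1 / 2) (by norm_num)
  have hev : ∀ᶠ N : ℕ in atTop, 4 ≤ Real.log N ∧ ((max h₀ 2 : ℕ) : ℝ) ^ 2 ≤ Real.log N ∧
      Real.log N ^ M ≤ exp (Real.log N) ∧
      4 * (M + 1) * Real.log (Real.log N) ≤ Real.log N ^ (1 / 4 : ℝ) :=
    (Real.tendsto_log_atTop.comp tendsto_natCast_atTop_atTop).eventually (ev_real M (max h₀ 2))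
  obtain ⟨N₀, hN₀⟩ := eventually_atTop.1 hev
  refine ⟨4 * C₁ + (1 + Real.log (N₀ + 1)) ^ (A + 2), ?_, ?_⟩
  · have : 0 ≤ Real.log ((N₀ : ℝ) + 1) := Real.log_nonneg (by linarith [Nat.cast_nonneg (α := ℝ) N₀])
    positivity
  intro N hN
  have hN1 : (1 : ℝ) < N := by exact_mod_cast hN
  have hlogN : 0 < Real.log N := Real.log_pos hN1
  have hq0 : 0 ≤ (N : ℝ) / Real.log N ^ (A + 2) := by positivity
  have hl0 : 0 ≤ Real.log ((N₀ : ℝ) + 1) :=
    Real.log_nonneg (by linarith [Nat.cast_nonneg (α := ℝ) N₀])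
  by_cases hbig : N₀ ≤ N
  swap
  · -- small N
    push Not at hbig
    have h1 : (({x : ℕ | x < N ∧ ∃ y : ℕ, Real.log N < (y : ℝ) ^ 2 ∧ (y : ℝ) ≤ Real.log N ^ M ∧
        Nat.primeCounting y + 1 ≤ P y x}.ncard : ℕ) : ℝ) ≤ N := by
      have h2 : {x : ℕ | x < N ∧ ∃ y : ℕ, Real.log N < (y : ℝ) ^ 2 ∧
          (y : ℝ) ≤ Real.log N ^ M ∧ Nat.primeCounting y + 1 ≤ P y x} ⊆
          ((range N : Finset ℕ) : Set ℕ) := by
        rintro x ⟨hx, -⟩
        simpa using hx
      have h3 := Set.ncard_le_ncard h2 (Finset.finite_toSet _)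
      rw [Set.ncard_coe_finset, card_range] at h3
      exact_mod_cast h3
    refine h1.trans ?_
    have h4 : Real.log N ≤ 1 + Real.log ((N₀ : ℝ) + 1) := by
      have h5 : Real.log N ≤ Real.log ((N₀ : ℝ) + 1) := by
        apply Real.log_le_log (by linarith)
        have : (N : ℝ) < N₀ := by exact_mod_cast hbig
        linarith
      linarith
    have h5 : Real.log N ^ (A + 2) ≤ (1 + Real.log ((N₀ : ℝ) + 1)) ^ (A + 2) :=
      pow_le_pow_left₀ hlogN.le h4 _
    have h6 : (N : ℝ) ≤ (1 + Real.log ((N₀ : ℝ) + 1)) ^ (A + 2) *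
        (N / Real.log N ^ (A + 2)) := by
      rw [← mul_div_assoc, le_div_iff₀ (by positivity), mul_comm]
      exact mul_le_mul_of_nonneg_right h5 (by linarith)
    have h7 : 0 ≤ 4 * C₁ * (N / Real.log N ^ (A + 2)) := by positivity
    linarith
  -- large N
  obtain ⟨ht4, hth, htM, htl⟩ := hN₀ N hbig
  set t := Real.log N with ht
  have ht0 : 0 < t := by linarith
  have htN : exp t = N := Real.exp_log (by linarith)
  rw [htN] at htM
  set z := t ^ (1 / 4 : ℝ) with hz
  have hz0 : 0 < z := by positivity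
  have hz4 : z ^ 4 = t := by
    rw [hz, ← Real.rpow_natCast, ← Real.rpow_mul ht0.le]
    norm_num
  set L := ⌊t⌋₊ with hL
  have hLt : (L : ℝ) ≤ t := Nat.floor_le ht0.le
  have hLt1 : t < L + 1 := Nat.lt_floor_add_one t
  have hL1 : 1 ≤ L := by
    have : (1 : ℝ) < L + 1 := by linarith
    have h2 : (0 : ℝ) < L := by linarith
    exact_mod_cast h2
  set m := ⌈z⌉₊ with hm
  have hmz : z ≤ m := Nat.le_ceil z
  have hmz1 : (m : ℝ) < z + 1 := Nat.ceil_lt_add_one hz0.le
  have hm1 : 1 ≤ m := by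
    have : (0 : ℝ) < m := by linarith
    exact_mod_cast this
  have hz2 : z ^ 2 ≤ L := by
    have h1 : z ^ 2 * z ^ 2 = t := by rw [← hz4]; ring
    have h2 : z ^ 2 ≤ t - 1 := by nlinarith [sq_nonneg (z ^ 2 - 2), sq_nonneg z]
    linarith
  -- the block of a bad number
  have hblock : ∀ x y : ℕ, t < (y : ℝ) ^ 2 → (y : ℝ) ≤ t ^ M →
      Nat.primeCounting y + 1 ≤ P y x → ∃ i ≤ y / L, m ≤ P L (x + i * L) := by
    intro x y hy1 hy2 hP
    apply exists_block hL1 hm1 hP
    have hymax : ((max h₀ 2 : ℕ) : ℝ) < y := by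
      have h1 : ((max h₀ 2 : ℕ) : ℝ) ^ 2 < (y : ℝ) ^ 2 := by linarith
      exact lt_of_pow_lt_pow_left₀ 2 (by positivity) h1
    have hymaxn : max h₀ 2 < y := by exact_mod_cast hymax
    have hyh : h₀ ≤ y := by omega
    have hy2' : 2 < y := by omega
    have hyr : (2 : ℝ) < y := by exact_mod_cast hy2'
    have hlogy : 0 < Real.log y := Real.log_pos (by linarith)
    have hpi := hPIL y hyh
    have hlogyle : Real.log y ≤ (M + 1) * Real.log t := by
      have h1 : Real.log y ≤ Real.log (t ^ M) := Real.log_le_log (by linarith) hy2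
      rw [Real.log_pow] at h1
      have h2 : 0 ≤ Real.log t := Real.log_nonneg (by linarith)
      linarith
    have h4z : 4 * Real.log y ≤ z := by
      have h1 : 4 * Real.log y ≤ 4 * ((M + 1) * Real.log t) := by linarith
      have h2 : 4 * ((M + 1) * Real.log t) = 4 * (M + 1) * Real.log t := by ring
      linarith
    have hzy : z ^ 2 ≤ y := by
      have h1 : (z ^ 2) ^ 2 < (y : ℝ) ^ 2 := by
        have : (z ^ 2) ^ 2 = z ^ 4 := by ring
        rw [this, hz4]
        exact hy1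
      exact (lt_of_pow_lt_pow_left₀ 2 (by positivity) h1).le
    have hLr : (0 : ℝ) < L := by exact_mod_cast hL1
    have hkey : ((y / L + 1 : ℕ) : ℝ) * (4 * Real.log y * z) ≤ 2 * y := by
      have h4z2 : 4 * Real.log y * z ≤ z ^ 2 := by nlinarith
      have h0 : 0 ≤ 4 * Real.log y * z := by positivity
      have hdiv : ((y / L : ℕ) : ℝ) ≤ y / L := Nat.cast_div_le
      push_cast
      have h5 : ((y / L : ℕ) : ℝ) * (4 * Real.log y * z) ≤ y := by
        have h6 : (y : ℝ) / L * (4 * Real.log y * z) ≤ y / L * L :=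
          mul_le_mul_of_nonneg_left (by linarith) (by positivity)
        rw [div_mul_cancel₀ _ hLr.ne'] at h6
        exact (mul_le_mul_of_nonneg_right hdiv h0).trans h6
      have h7 : 1 * (4 * Real.log y * z) ≤ (y : ℝ) := by linarith
      rw [add_mul]
      linarith
    have hreal : ((y / L + 1 : ℕ) : ℝ) * z ≤ Nat.primeCounting y := by
      refine le_trans ?_ hpi
      have h1 : (1 - 1 / 2 : ℝ) * ((y : ℝ) / Real.log y) = y / (2 * Real.log y) := by
        field_simp
        norm_num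
      rw [h1, le_div_iff₀ (by positivity)]
      nlinarith
    have hfin : ((y / L + 1 : ℕ) : ℝ) * ((m - 1 : ℕ) : ℝ) ≤ Nat.primeCounting y := by
      refine le_trans ?_ hreal
      apply mul_le_mul_of_nonneg_left _ (by positivity)
      rw [Nat.cast_sub hm1]
      push_cast
      linarith
    exact_mod_cast hfin
  -- the count
  set K := ⌊t ^ M⌋₊ + 1 with hK
  set L' := ⌊Real.log ((2 * N : ℕ) : ℝ)⌋₊ with hL'
  have hLL' : L ≤ L' := by
    apply Nat.floor_le_floor
    apply Real.log_le_log (by linarith)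
    push_cast
    linarith
  set S := (range (2 * N)).filter fun x => m ≤ P L' x with hS
  have hcount := hLOG (2 * N) m (by omega) hm1
  rw [← hL', ← hS] at hcount
  have hsub : {x : ℕ | x < N ∧ ∃ y : ℕ, t < (y : ℝ) ^ 2 ∧ (y : ℝ) ≤ t ^ M ∧
      Nat.primeCounting y + 1 ≤ P y x} ⊆
      (((range K).biUnion fun i => (range N).filter fun x => x + i * L ∈ S : Finset ℕ) :
        Set ℕ) := by
    rintro x ⟨hx, y, hy1, hy2, hP⟩
    obtain ⟨i, hi, him⟩ := hblock x y hy1 hy2 hP
    have hyN : (y : ℝ) ≤ N := hy2.trans htM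
    have hyNn : y ≤ N := by exact_mod_cast hyN
    have hiL : i * L ≤ y := (Nat.mul_le_mul_right L hi).trans (Nat.div_mul_le_self y L)
    simp only [coe_biUnion, Set.mem_iUnion, mem_coe, mem_filter, mem_range, exists_prop, hS]
    refine ⟨i, ?_, hx, by omega, him.trans (P_mono hLL' _)⟩
    have h1 : y ≤ ⌊t ^ M⌋₊ := Nat.le_floor hy2
    have h2 : y / L ≤ y := Nat.div_le_self _ _
    omega
  have hcard : ((range K).biUnion fun i => (range N).filter fun x => x + i * L ∈ S).card ≤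
      K * S.card := by
    refine card_biUnion_le.trans ?_
    calc ∑ i ∈ range K, ((range N).filter fun x => x + i * L ∈ S).card ≤
        ∑ _i ∈ range K, S.card := by
          apply sum_le_sum
          intro i _
          apply card_le_card_of_injOn (fun x => x + i * L)
          · intro x hx
            exact (mem_filter.1 hx).2
          · intro a _ b _ hab
            simpa using hab
      _ = K * S.card := by rw [sum_const, card_range, smul_eq_mul]
  have h1 : {x : ℕ | x < N ∧ ∃ y : ℕ, t < (y : ℝ) ^ 2 ∧ (y : ℝ) ≤ t ^ M ∧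
      Nat.primeCounting y + 1 ≤ P y x}.ncard ≤ K * S.card := by
    have h2 := Set.ncard_le_ncard hsub (Finset.finite_toSet _)
    rw [Set.ncard_coe_finset] at h2
    exact h2.trans hcard
  have h2 : (({x : ℕ | x < N ∧ ∃ y : ℕ, t < (y : ℝ) ^ 2 ∧ (y : ℝ) ≤ t ^ M ∧
      Nat.primeCounting y + 1 ≤ P y x}.ncard : ℕ) : ℝ) ≤ (K : ℝ) * S.card := by
    exact_mod_cast h1
  have hKle : (K : ℝ) ≤ 2 * t ^ M := by
    rw [hK]
    push_cast
    have h3 : (⌊t ^ M⌋₊ : ℝ) ≤ t ^ M := Nat.floor_le (by positivity)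
    have h4 : 1 ≤ t ^ M := one_le_pow₀ (by linarith)
    linarith
  have hmpow : t ^ (M + A + 2) ≤ (m : ℝ) ^ (4 * (M + A + 2)) := by
    calc t ^ (M + A + 2) = z ^ (4 * (M + A + 2)) := by rw [pow_mul, hz4]
      _ ≤ (m : ℝ) ^ (4 * (M + A + 2)) := pow_le_pow_left₀ hz0.le hmz _
  have hSle : (S.card : ℝ) ≤ C₁ * (2 * N / t ^ (M + A + 2)) := by
    refine hcount.trans ?_
    apply mul_le_mul_of_nonneg_left _ hC₁.le
    push_cast
    exact div_le_div_of_nonneg_left (by positivity) (by positivity) hmpow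
  have h5 : (K : ℝ) * S.card ≤ 4 * C₁ * (N / t ^ (A + 2)) := by
    calc (K : ℝ) * S.card ≤ (2 * t ^ M) * (C₁ * (2 * N / t ^ (M + A + 2))) :=
          mul_le_mul hKle hSle (by positivity) (by positivity)
      _ = 4 * C₁ * (N / t ^ (A + 2)) := by
          rw [show M + A + 2 = M + (A + 2) by ring, pow_add]
          field_simp
          ring
  have h6 : 0 ≤ (1 + Real.log ((N₀ : ℝ) + 1)) ^ (A + 2) * (N / t ^ (A + 2)) := by positivity
  linarith

end Pool.Agent.H35.APR
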