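import Pool.Agent.H27.AP.Targets
import Pool.Agent.H21.PI.Tuple

/-!
# Row TUP of the board `apr_modules` (MP_98b15b_nt)
-/

set_option autoImplicit false

open Finset Real

namespace Pool.Agent.H35.APR

open Pool.Agent.H27.AP Pool.Agent.H18.T2 Pool.Agent.H21.PI

/-- one tuple -/
theorem tup_one {C : ℝ} (hC0 : 0 < C) (hC : ∀ y : ℕ, 2 ≤ y →
    ∏ p ∈ Nat.primesLE y, (1 + 1 / (p : ℝ)) ≤ C * Real.log y) (r h N z : ℕ) (hh : 1 ≤ h)
    (hz : 1 ≤ z) (U : Finset ℕ) (hU : U ⊆ range (h + 1)) (hUr : U.card = r + 1) :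
    ((((Finset.Ico (z ^ (r + 1) + 1) (z ^ (r + 1) + 1 + N)).filter
      (fun t => ∀ u ∈ U, (t + u).Prime)).card : ℕ) : ℝ) ≤
      (2 * (C * ((r + 2) * (1 + Real.log h)))) ^ (r + 1) * N / (Real.log (z + 1)) ^ (r + 1) +
        (z : ℝ) ^ (6 * (r + 1)) := by
  have h1 := sieve_bound 1 U (z ^ (r + 1) + 1) N z (by omega) hz (Nat.primesLE (h + r + 1)) (by
    intro p hp
    exact (Nat.mem_primesLE.1 hp).2.pos) (by
    intro p hp _ hpB
    have hph : h + r + 1 < p := by
      by_contra hcon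
      exact hpB (Nat.mem_primesLE.2 ⟨by omega, hp⟩)
    refine ⟨fun hd => ?_, by omega, fun u hu v hv huv hd => ?_⟩
    · exact hp.one_lt.ne' (Nat.dvd_one.1 hd)
    · have h2 := Nat.le_of_dvd (by omega) hd
      have h3 := mem_range.1 (hU hv)
      omega)
  rw [hUr] at h1
  have h2 : ((((Finset.Ico (z ^ (r + 1) + 1) (z ^ (r + 1) + 1 + N)).filter
      (fun t => ∀ u ∈ U, (t + u).Prime)).card : ℕ) : ℝ) ≤
      (((Finset.Ico (z ^ (r + 1) + 1) (z ^ (r + 1) + 1 + N)).filter
      (fun n => (∏ p ∈ SPK 1 U (z ^ (r + 1)), p).Coprime (valL 1 U n))).card : ℝ) := by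
    norm_cast
    apply card_le_card
    intro t ht
    rw [mem_filter, mem_Ico] at ht
    rw [mem_filter, mem_Ico]
    refine ⟨ht.1, ?_⟩
    apply Nat.Coprime.prod_left
    intro p hp
    have hp' := mem_SPK.1 hp
    unfold valL
    apply Nat.Coprime.prod_right
    intro v hv
    rw [one_mul, Nat.coprime_primes hp'.1.2 (ht.2 v hv)]
    omega
  refine h2.trans (h1.trans ?_)
  apply add_le_add_left
  have hlz : 0 < Real.log (z + 1) := by
    apply Real.log_pos
    have : (1 : ℝ) ≤ z := by exact_mod_cast hz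
    linarith
  have hhr : (1 : ℝ) ≤ h := by exact_mod_cast hh
  have hlh : 0 ≤ Real.log h := Real.log_nonneg hhr
  have hB : ∏ p ∈ Nat.primesLE (h + r + 1), (1 + 1 / (p : ℝ)) ≤
      C * ((r + 2) * (1 + Real.log h)) := by
    refine (hC (h + r + 1) (by omega)).trans ?_
    apply mul_le_mul_of_nonneg_left _ hC0.le
    have e1 : Real.log ((h + r + 1 : ℕ) : ℝ) ≤ Real.log ((h : ℝ) * (r + 2)) := by
      apply Real.log_le_log (by positivity)
      push_cast
      nlinarith [Nat.cast_nonneg (α := ℝ) r]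
    have e2 : Real.log ((h : ℝ) * (r + 2)) = Real.log h + Real.log (r + 2) :=
      Real.log_mul (by positivity) (by positivity)
    have e3 : Real.log ((r : ℝ) + 2) ≤ r + 1 := by
      have := Real.log_le_sub_one_of_pos (show (0 : ℝ) < r + 2 by positivity)
      linarith
    have e4 : 0 ≤ (r : ℝ) * Real.log h := by positivity
    nlinarith
  have h4 : 0 ≤ ∏ p ∈ Nat.primesLE (h + r + 1), (1 + 1 / (p : ℝ)) :=
    zero_le_one.trans (prod_one_le _)
  have h5 : 2 * ∏ p ∈ Nat.primesLE (h + r + 1), (1 + 1 / (p : ℝ)) ≤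
      2 * (C * ((r + 2) * (1 + Real.log h))) := by linarith
  gcongr

theorem log_pow_le (K : ℕ) (hK : 1 ≤ K) (x : ℝ) (hx : 1 ≤ x) :
    Real.log x ^ K ≤ (2 * K) ^ K * x ^ (1 / 2 : ℝ) := by
  have hK0 : (0 : ℝ) < 2 * K := by positivity
  set y := x ^ (1 / (2 * K : ℝ)) with hy
  have hx0 : 0 < x := by linarith
  have hy0 : 0 < y := by positivity
  have h1 : Real.log x = 2 * K * Real.log y := by
    rw [hy, Real.log_rpow hx0]
    field_simp
  have h2 : Real.log x ≤ 2 * K * y := by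
    rw [h1]
    apply mul_le_mul_of_nonneg_left _ hK0.le
    have := Real.log_le_sub_one_of_pos hy0
    linarith
  have h3 : y ^ K = x ^ (1 / 2 : ℝ) := by
    rw [hy, ← Real.rpow_natCast, ← Real.rpow_mul hx0.le]
    congr 1
    have : (K : ℝ) ≠ 0 := by positivity
    field_simp
  calc Real.log x ^ K ≤ (2 * K * y) ^ K := pow_le_pow_left₀ (Real.log_nonneg hx) h2 _
    _ = (2 * K) ^ K * x ^ (1 / 2 : ℝ) := by rw [mul_pow, h3]

theorem pf_TUP : T_TUP := by
  intro r
  obtain ⟨C, hC0, hC⟩ := mertens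
  set K := r + 1 with hK
  have hK1 : 1 ≤ K := by omega
  have hK0 : (0 : ℝ) < K := by positivity
  set C₁ : ℝ := (24 * K * (C * (r + 2))) ^ K with hC₁
  refine ⟨C₁ + 3 * (2 * K) ^ K, by positivity, ?_⟩
  intro N h hN hh
  have hN1 : (1 : ℝ) < N := by exact_mod_cast hN
  have hN0 : (0 : ℝ) < N := by linarith
  have hl0 : 0 < Real.log N := Real.log_pos hN1
  have hhr : (1 : ℝ) ≤ h := by exact_mod_cast hh
  have hlh : 0 ≤ Real.log h := Real.log_nonneg hhr
  set z := ⌊(N : ℝ) ^ (1 / (12 * K : ℝ))⌋₊ with hz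
  have hw1 : 1 ≤ (N : ℝ) ^ (1 / (12 * K : ℝ)) := Real.one_le_rpow hN1.le (by positivity)
  have hz1 : 1 ≤ z := Nat.le_floor (by exact_mod_cast hw1)
  have hzw : (z : ℝ) ≤ (N : ℝ) ^ (1 / (12 * K : ℝ)) := Nat.floor_le (by positivity)
  have hzr : (1 : ℝ) ≤ z := by exact_mod_cast hz1
  -- the logarithm
  have hlogz : Real.log N / (12 * K) ≤ Real.log (z + 1) := by
    have h1 : Real.log N / (12 * K) = Real.log ((N : ℝ) ^ (1 / (12 * K : ℝ))) := by
      rw [Real.log_rpow hN0]
      ring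
    rw [h1]
    exact Real.log_le_log (by positivity) (Nat.lt_floor_add_one _).le
  have hz6 : (z : ℝ) ^ (6 * K) ≤ (N : ℝ) ^ (1 / 2 : ℝ) := by
    calc (z : ℝ) ^ (6 * K) ≤ ((N : ℝ) ^ (1 / (12 * K : ℝ))) ^ (6 * K) :=
          pow_le_pow_left₀ (by positivity) hzw _
      _ = (N : ℝ) ^ (1 / 2 : ℝ) := by
          rw [← Real.rpow_natCast, ← Real.rpow_mul hN0.le]
          congr 1
          push_cast
          field_simp
          norm_num
  have hzK : (z : ℝ) ^ K ≤ (z : ℝ) ^ (6 * K) := pow_le_pow_right₀ hzr (by omega)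
  have hz61 : 1 ≤ (z : ℝ) ^ (6 * K) := one_le_pow₀ hzr
  -- the square root
  have hsq : (N : ℝ) ^ (1 / 2 : ℝ) ≤ (2 * K) ^ K * (N / Real.log N ^ K) := by
    have h1 := log_pow_le K hK1 N hN1.le
    have h2 : (N : ℝ) ^ (1 / 2 : ℝ) * (N : ℝ) ^ (1 / 2 : ℝ) = N := by
      rw [← Real.rpow_add hN0]
      norm_num
    rw [← mul_div_assoc, le_div_iff₀ (by positivity)]
    calc (N : ℝ) ^ (1 / 2 : ℝ) * Real.log N ^ K ≤
        (N : ℝ) ^ (1 / 2 : ℝ) * ((2 * K) ^ K * (N : ℝ) ^ (1 / 2 : ℝ)) :=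
          mul_le_mul_of_nonneg_left h1 (by positivity)
      _ = (2 * K) ^ K * ((N : ℝ) ^ (1 / 2 : ℝ) * (N : ℝ) ^ (1 / 2 : ℝ)) := by ring
      _ = (2 * K) ^ K * N := by rw [h2]
  -- the inclusion
  have hsub : ((range N).filter fun x => x.Prime ∧ r ≤ P h x) ⊆
      range (z ^ K + 1) ∪ (powersetCard r (Icc 1 h)).biUnion fun U =>
        (Finset.Ico (z ^ K + 1) (z ^ K + 1 + N)).filter
          (fun t => ∀ u ∈ insert 0 U, (t + u).Prime) := by
    intro x hx
    rw [mem_filter, mem_range] at hx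
    obtain ⟨hxN, hxp, hxr⟩ := hx
    rw [mem_union, mem_range]
    by_cases hxz : x < z ^ K + 1
    · exact Or.inl hxz
    · right
      unfold P at hxr
      obtain ⟨V, hV, hVr⟩ := exists_subset_card_eq hxr
      have hVm : ∀ v ∈ V, x < v ∧ v ≤ x + h ∧ v.Prime := by
        intro v hv
        have := hV hv
        rw [mem_filter, mem_Ioc] at this
        exact ⟨this.1.1, this.1.2, this.2⟩
      rw [mem_biUnion]
      refine ⟨V.image fun v => v - x, ?_, ?_⟩
      · rw [mem_powersetCard]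
        constructor
        · intro u hu
          rw [mem_image] at hu
          obtain ⟨v, hv, rfl⟩ := hu
          have := hVm v hv
          rw [mem_Icc]
          omega
        · rw [card_image_of_injOn, hVr]
          intro a ha b hb hab
          have h1 := hVm a ha
          have h2 := hVm b hb
          have h3 : a - x = b - x := hab
          omega
      · rw [mem_filter, mem_Ico]
        refine ⟨⟨by omega, by omega⟩, ?_⟩
        intro u hu
        rw [mem_insert] at hu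
        rcases hu with rfl | hu
        · exact hxp
        · rw [mem_image] at hu
          obtain ⟨v, hv, rfl⟩ := hu
          have h1 := hVm v hv
          have h2 : x + (v - x) = v := by omega
          rw [h2]
          exact h1.2.2
  set X : ℝ := (2 * (C * ((r + 2) * (1 + Real.log h)))) ^ K * N / (Real.log (z + 1)) ^ K +
        (z : ℝ) ^ (6 * K) with hX
  have hlz : 0 < Real.log (z + 1) := lt_of_lt_of_le (by positivity) hlogz
  have hX0 : 0 ≤ X := by positivity
  have hone : ∀ U ∈ powersetCard r (Icc 1 h),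
      ((((Finset.Ico (z ^ K + 1) (z ^ K + 1 + N)).filter
          (fun t => ∀ u ∈ insert 0 U, (t + u).Prime)).card : ℕ) : ℝ) ≤ X := by
    intro U hU
    rw [mem_powersetCard] at hU
    refine tup_one hC0 hC r h N z hh hz1 (insert 0 U) ?_ ?_
    · intro u hu
      rw [mem_insert] at hu
      rw [mem_range]
      rcases hu with rfl | hu
      · omega
      · have := mem_Icc.1 (hU.1 hu)
        omega
    · rw [card_insert_of_notMem, hU.2]
      intro h0
      have := mem_Icc.1 (hU.1 h0)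
      omega
  have hcard : ((((range N).filter fun x => x.Prime ∧ r ≤ P h x).card : ℕ) : ℝ) ≤
      (z ^ K + 1 : ℕ) + ((h : ℝ) ^ r) * X := by
    have h1 := card_le_card hsub
    have h2 := (card_union_le (range (z ^ K + 1))
      ((powersetCard r (Icc 1 h)).biUnion fun U =>
        (Finset.Ico (z ^ K + 1) (z ^ K + 1 + N)).filter
          (fun t => ∀ u ∈ insert 0 U, (t + u).Prime)))
    rw [card_range] at h2
    have h3 : ((((powersetCard r (Icc 1 h)).biUnion fun U =>
        (Finset.Ico (z ^ K + 1) (z ^ K + 1 + N)).filter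
          (fun t => ∀ u ∈ insert 0 U, (t + u).Prime)).card : ℕ) : ℝ) ≤ ((h : ℝ) ^ r) * X := by
      have h4 : ((((powersetCard r (Icc 1 h)).biUnion fun U =>
        (Finset.Ico (z ^ K + 1) (z ^ K + 1 + N)).filter
          (fun t => ∀ u ∈ insert 0 U, (t + u).Prime)).card : ℕ) : ℝ) ≤
          ((∑ U ∈ powersetCard r (Icc 1 h), ((Finset.Ico (z ^ K + 1) (z ^ K + 1 + N)).filter
          (fun t => ∀ u ∈ insert 0 U, (t + u).Prime)).card : ℕ) : ℝ) := by
        exact_mod_cast card_biUnion_le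
      refine h4.trans ?_
      push_cast
      refine (sum_le_sum hone).trans ?_
      rw [sum_const, card_powersetCard, Nat.card_Icc, nsmul_eq_mul]
      apply mul_le_mul_of_nonneg_right _ hX0
      have h5 : (h + 1 - 1).choose r ≤ h ^ r := by
        rw [Nat.add_sub_cancel]
        exact Nat.choose_le_pow h r
      exact_mod_cast h5
    have h5 : ((((range N).filter fun x => x.Prime ∧ r ≤ P h x).card : ℕ) : ℝ) ≤
        ((z ^ K + 1 : ℕ) : ℝ) + ((((powersetCard r (Icc 1 h)).biUnion fun U =>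
        (Finset.Ico (z ^ K + 1) (z ^ K + 1 + N)).filter
          (fun t => ∀ u ∈ insert 0 U, (t + u).Prime)).card : ℕ) : ℝ) := by
      exact_mod_cast h1.trans h2
    linarith
  -- the final bound
  set Y : ℝ := (h : ℝ) ^ r * (1 + Real.log h) ^ K with hY
  have hY1 : (h : ℝ) ^ r ≤ Y := by
    have h1 : 1 ≤ (1 + Real.log h) ^ K := one_le_pow₀ (by linarith)
    have h2 : 0 ≤ (h : ℝ) ^ r := by positivity
    nlinarith
  have hhr1 : 1 ≤ (h : ℝ) ^ r := one_le_pow₀ hhr
  have hY0 : 0 ≤ Y := by linarith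
  set q : ℝ := N / Real.log N ^ K with hq
  have hq0 : 0 ≤ q := by positivity
  have hmain : (h : ℝ) ^ r * ((2 * (C * ((r + 2) * (1 + Real.log h)))) ^ K * N /
      (Real.log (z + 1)) ^ K) ≤ C₁ * Y * q := by
    have h1 : (Real.log N / (12 * K)) ^ K ≤ (Real.log (z + 1)) ^ K :=
      pow_le_pow_left₀ (by positivity) hlogz _
    have h2 : (2 * (C * ((r + 2) * (1 + Real.log h)))) ^ K * N / (Real.log (z + 1)) ^ K ≤
        (2 * (C * ((r + 2) * (1 + Real.log h)))) ^ K * N / (Real.log N / (12 * K)) ^ K :=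
      div_le_div_of_nonneg_left (by positivity) (by positivity) h1
    have h3 : (2 * (C * ((r + 2) * (1 + Real.log h)))) ^ K * N / (Real.log N / (12 * K)) ^ K =
        C₁ * (1 + Real.log h) ^ K * q := by
      rw [hC₁, hq, div_pow, div_div_eq_mul_div, mul_div_assoc']
      congr 1
      have h4 : (24 * K * (C * (r + 2)) : ℝ) ^ K * (1 + Real.log h) ^ K =
          (2 * (C * ((r + 2) * (1 + Real.log h)))) ^ K * (12 * K) ^ K := by
        rw [← mul_pow, ← mul_pow]
        congr 1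
        ring
      rw [h4]
      ring
    rw [h3] at h2
    calc _ ≤ (h : ℝ) ^ r * (C₁ * (1 + Real.log h) ^ K * q) :=
          mul_le_mul_of_nonneg_left h2 (by positivity)
      _ = C₁ * Y * q := by rw [hY]; ring
  have hz6' : (z : ℝ) ^ (6 * K) ≤ (2 * K) ^ K * q := hz6.trans hsq
  have h2K : 0 ≤ ((2 * K : ℝ)) ^ K * q := by positivity
  have hfirst : ((z ^ K + 1 : ℕ) : ℝ) ≤ 2 * ((2 * K) ^ K * q) * Y := by
    push_cast
    have h1 : 1 ≤ Y := by linarith
    nlinarith
  have hsecond : (h : ℝ) ^ r * (z : ℝ) ^ (6 * K) ≤ ((2 * K) ^ K * q) * Y := by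
    calc (h : ℝ) ^ r * (z : ℝ) ^ (6 * K) ≤ Y * ((2 * K) ^ K * q) :=
          mul_le_mul hY1 hz6' (by positivity) hY0
      _ = _ := by ring
  calc ((((range N).filter fun x => x.Prime ∧ r ≤ P h x).card : ℕ) : ℝ) ≤
      (z ^ K + 1 : ℕ) + ((h : ℝ) ^ r) * X := hcard
    _ = (z ^ K + 1 : ℕ) + ((h : ℝ) ^ r * ((2 * (C * ((r + 2) * (1 + Real.log h)))) ^ K * N /
      (Real.log (z + 1)) ^ K) + (h : ℝ) ^ r * (z : ℝ) ^ (6 * K)) := by rw [hX]; ring
    _ ≤ 2 * ((2 * K) ^ K * q) * Y + (C₁ * Y * q + ((2 * K) ^ K * q) * Y) := by linarith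
    _ = (C₁ + 3 * (2 * K) ^ K) * Y * q := by ring

end Pool.Agent.H35.APR
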